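import Pool.Agent.Lib_MP_759950.Hubs

/-!
# Multiple list colouring of planar graphs with hubs of arbitrary degree

For every `ε > 0` there is `c > 0` such that, for all large `b` and all
`a ≥ ((5 + √21) / 2 + ε) b`, a planar graph is `(a : b)`-choosable if its vertices of degree larger
than `exp (c b)` are pairwise at distance at least `4`; note that `(5 + √21) / 2 < 4.8`. This is
stated for the `q`-colourable graphs without a `K_{r,r}` minor; the planar graphs are `4`-colourable
and have no `K_{3,3}` minor.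
-/

set_option autoImplicit false

namespace Pool.Agent.Results.MP_759950_co.DistantHubs

/-- `G` has a `K_{r,r}` minor: there are `2 r` pairwise disjoint sets `A i`, `B j` of vertices, each
of which induces a connected (in particular nonempty) subgraph, such that there is an edge between
`A i` and `B j` for all `i` and `j`. -/
def HasKrrMinor {V : Type*} (G : SimpleGraph V) (r : ℕ) : Prop :=
  ∃ A B : Fin r → Set V,
    (∀ i, (G.induce (A i)).Connected) ∧ (∀ j, (G.induce (B j)).Connected) ∧
    (∀ i i', i ≠ i' → Disjoint (A i) (A i')) ∧ (∀ j j', j ≠ j' → Disjoint (B j) (B j')) ∧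
    (∀ i j, Disjoint (A i) (B j)) ∧ ∀ i j, ∃ x ∈ A i, ∃ y ∈ B j, G.Adj x y

/-- `G` is `(a : b)`-choosable: for every list assignment `L` with lists of size `a` there are sets
`φ v ⊆ L v` of size `b` such that `φ u` and `φ v` are disjoint for every edge `u v`. -/
def Choosable {V : Type*} (G : SimpleGraph V) (a b : ℕ) : Prop :=
  ∀ L : V → Finset ℕ, (∀ v, (L v).card = a) → ∃ φ : V → Finset ℕ,
    (∀ v, φ v ⊆ L v ∧ (φ v).card = b) ∧ ∀ u v, G.Adj u v → Disjoint (φ u) (φ v)

/-- Let `q ≥ 2` and let `ρ = ((q + 1) + √((q + 1)² - 4)) / 2` be the larger root of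
`ρ² = (q + 1) ρ - 1`; it is smaller than `q + 1`, and it is `(5 + √21) / 2` for `q = 4`. For all `r`
and `ε > 0` there are `c > 0` and `b₀` such that, whenever `b ≥ b₀` and `a ≥ (ρ + ε) b`, every finite
`q`-colourable graph `G` without a `K_{r,r}` minor is `(a : b)`-choosable if there is a set `X` of
vertices pairwise at distance at least `4` such that the vertices outside `X` have degree at most
`exp (c b)`. -/
theorem result : ∀ (r q : ℕ), 2 ≤ q → ∀ ε : ℝ, 0 < ε → ∃ c : ℝ, 0 < c ∧ ∃ b₀ : ℕ,
    ∀ a b : ℕ, b₀ ≤ b → ((q + 1 + √((q + 1) ^ 2 - 4)) / 2 + ε) * b ≤ a →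
      ∀ (V : Type) [Fintype V] [DecidableEq V] (G : SimpleGraph V) [DecidableRel G.Adj] (X : Set V),
      ¬ HasKrrMinor G r → G.Colorable q →
      (∀ x ∈ X, ∀ y ∈ X, x ≠ y → ∀ p : G.Walk x y, 4 ≤ p.length) →
      (∀ v, v ∉ X → (G.degree v : ℝ) ≤ Real.exp (c * b)) → Choosable G a b :=
  fun r q hq _ hε => Pool.Agent.Lib_MP_759950.main2 r q hq hε

end Pool.Agent.Results.MP_759950_co.DistantHubs
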