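import Pool.Agent.Lib_MP_759950.Final

/-!
# Multiple list colouring of planar graphs whose degrees are at most exponential in `b`

For every `ε > 0` there is `c > 0` such that, for all large `b` and all `a ≥ (4 + ε) b`, every planar
graph with maximum degree at most `exp (c b)` is `(a : b)`-choosable. This is stated for the
`q`-colourable graphs without a `K_{r,r}` minor; the planar graphs are `4`-colourable and have no
`K_{3,3}` minor.
-/

set_option autoImplicit false

namespace Pool.Agent.Results.MP_759950_co.ExponentialDegree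

/-- `G` has a `K_{r,r}` minor: there are `2 r` pairwise disjoint sets `A i`, `B j` of vertices, each
of which induces a connected (in particular nonempty) subgraph, such that there is an edge between
`A i` and `B j` for all `i` and `j`. -/
def HasKrrMinor {V : Type*} (G : SimpleGraph V) (r : ℕ) : Prop :=
  ∃ A B : Fin r → Set V,
    (∀ i, (G.induce (A i)).Connected) ∧ (∀ j, (G.induce (B j)).Connected) ∧
    (∀ i i', i ≠ i' → Disjoint (A i) (A i')) ∧ (∀ j j', j ≠ j' → Disjoint (B j) (B j')) ∧
    (∀ i j, Disjoint (A i) (B j)) ∧ ∀ i j, ∃ x ∈ A i, ∃ y ∈ B j, G.Adj x y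

/-- `G` is `(a : b)`-choosable: for every list assignment `L` with lists of size `a` there are sets
`φ v ⊆ L v` of size `b` such that `φ u` and `φ v` are disjoint for every edge `u v`. -/
def Choosable {V : Type*} (G : SimpleGraph V) (a b : ℕ) : Prop :=
  ∀ L : V → Finset ℕ, (∀ v, (L v).card = a) → ∃ φ : V → Finset ℕ,
    (∀ v, φ v ⊆ L v ∧ (φ v).card = b) ∧ ∀ u v, G.Adj u v → Disjoint (φ u) (φ v)

/-- For all `r`, `q` and `ε > 0` there are `c > 0` and `b₀` such that, whenever `b ≥ b₀` and
`a ≥ (q + ε) b`, every finite `q`-colourable graph without a `K_{r,r}` minor and with all degrees at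
most `exp (c b)` is `(a : b)`-choosable. -/
theorem result : ∀ (r q : ℕ) (ε : ℝ), 0 < ε → ∃ c : ℝ, 0 < c ∧ ∃ b₀ : ℕ, ∀ a b : ℕ, b₀ ≤ b →
    (q + ε) * b ≤ a → ∀ (V : Type) [Fintype V] [DecidableEq V] (G : SimpleGraph V)
      [DecidableRel G.Adj], ¬ HasKrrMinor G r → G.Colorable q →
      (∀ v, (G.degree v : ℝ) ≤ Real.exp (c * b)) → Choosable G a b :=
  fun r q _ hε => Pool.Agent.Lib_MP_759950.main r q hε

end Pool.Agent.Results.MP_759950_co.ExponentialDegree
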